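import Mathlib
import Pool.Agent.H94G.Four

set_option autoImplicit false

/-!
The transfinite achievement game in the plane `ℂ`: for every goal set with four points the first
player forces a strong win, by his tenth move at the latest.
-/

namespace Pool.Agent.Results.MP_a4da43_co.FourPoints

open Set

/-- `Built G S`: the set `S` of points of the plane contains a subset congruent to `G`. -/
def Built (G S : Set ℂ) : Prop := ∃ e : ℂ ≃ᵢ ℂ, e '' G ⊆ S

/-- A history of moves: `h β` is the pair (point claimed by Player 1, point claimed by Player 2)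
of turn `β + 1`. -/
def Hist : Type 1 := Ordinal.{0} → ℂ × ℂ

/-- The points claimed by Player 1 in the turns `β + 1` with `β < α`. -/
def pts1 (h : Hist) (α : Ordinal.{0}) : Set ℂ := {z | ∃ β < α, (h β).1 = z}

/-- The points claimed by Player 2 in the turns `β + 1` with `β < α`. -/
def pts2 (h : Hist) (α : Ordinal.{0}) : Set ℂ := {z | ∃ β < α, (h β).2 = z}

/-- The move of Player 1 in turn `α + 1` claims an unclaimed point. -/
def Legal1 (h : Hist) (α : Ordinal.{0}) : Prop := (h α).1 ∉ pts1 h α ∪ pts2 h α

/-- The move of Player 2 in turn `α + 1` claims an unclaimed point. -/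
def Legal2 (h : Hist) (α : Ordinal.{0}) : Prop := (h α).2 ∉ pts1 h (α + 1) ∪ pts2 h α

/-- The turns `β + 1`, `β < α`, have been played with legal moves, and nobody has built `G`. -/
def Running (G : Set ℂ) (h : Hist) (α : Ordinal.{0}) : Prop :=
  ∀ β < α, Legal1 h β ∧ Legal2 h β ∧ ¬ Built G (pts1 h (β + 1)) ∧ ¬ Built G (pts2 h (β + 1))

/-- A strategy of Player 1: a point for every stage and every history of the earlier moves. -/
structure Strategy where
  /-- the point which Player 1 claims in turn `α + 1` -/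
  move : Ordinal.{0} → Hist → ℂ
  /-- it depends only on the earlier moves -/
  earlier : ∀ (α : Ordinal.{0}) (h h' : Hist), (∀ β < α, h β = h' β) → move α h = move α h'

/-- The play `h` is consistent with the strategy `s`, and Player 2 claims an unclaimed point
whenever it is his turn: the play has not ended and an unclaimed point remains. -/
def Consistent (G : Set ℂ) (s : Strategy) (h : Hist) : Prop :=
  (∀ β, (h β).1 = s.move β h) ∧
    ∀ β, Running G h β → ¬ Built G (pts1 h (β + 1)) →
      (∃ b, b ∉ pts1 h (β + 1) ∪ pts2 h β) → Legal2 h β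

/-- The play `h` ends in turn `α + 1` with a strong win of Player 1: up to then all moves were
legal and nobody had built `G`, and now Player 1 claims an unclaimed point and has built `G`. -/
def StrongWin (G : Set ℂ) (h : Hist) (α : Ordinal.{0}) : Prop :=
  Running G h α ∧ Legal1 h α ∧ Built G (pts1 h (α + 1))

theorem pts1_succ (h : Hist) (α : Ordinal.{0}) :
    pts1 h (α + 1) = insert (h α).1 (pts1 h α) := by
  ext z
  simp only [pts1, mem_ofPred_eq, mem_insert_iff, ← Order.succ_eq_add_one, Order.lt_succ_iff]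
  constructor
  · rintro ⟨β, hβ, rfl⟩
    rcases hβ.lt_or_eq with h1 | rfl
    · exact Or.inr ⟨β, h1, rfl⟩
    · exact Or.inl rfl
  · rintro (rfl | ⟨β, hβ, rfl⟩)
    · exact ⟨α, le_rfl, rfl⟩
    · exact ⟨β, hβ.le, rfl⟩

theorem pts2_succ (h : Hist) (α : Ordinal.{0}) :
    pts2 h (α + 1) = insert (h α).2 (pts2 h α) := by
  ext z
  simp only [pts2, mem_ofPred_eq, mem_insert_iff, ← Order.succ_eq_add_one, Order.lt_succ_iff]
  constructor
  · rintro ⟨β, hβ, rfl⟩
    rcases hβ.lt_or_eq with h1 | rfl
    · exact Or.inr ⟨β, h1, rfl⟩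
    · exact Or.inl rfl
  · rintro (rfl | ⟨β, hβ, rfl⟩)
    · exact ⟨α, le_rfl, rfl⟩
    · exact ⟨β, hβ.le, rfl⟩

theorem pts1_congr {h h' : Hist} {α : Ordinal.{0}} (H : ∀ β < α, h β = h' β) :
    pts1 h α = pts1 h' α := by
  ext z
  constructor <;> rintro ⟨β, hβ, rfl⟩
  · exact ⟨β, hβ, by rw [H β hβ]⟩
  · exact ⟨β, hβ, by rw [H β hβ]⟩

theorem pts2_congr {h h' : Hist} {α : Ordinal.{0}} (H : ∀ β < α, h β = h' β) :
    pts2 h α = pts2 h' α := by
  ext z
  constructor <;> rintro ⟨β, hβ, rfl⟩
  · exact ⟨β, hβ, by rw [H β hβ]⟩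
  · exact ⟨β, hβ, by rw [H β hβ]⟩

/-- good moves in a position with `k` moves left. -/
def Good (G : Set ℂ) (k : ℕ) (A B : Set ℂ) (a : ℂ) : Prop :=
  a ∉ A ∧ a ∉ B ∧ (H94G.Built G (insert a A) ∨
      ∀ b, b ∉ insert a A → b ∉ B →
        ¬ H94G.Built G (insert b B) ∧ H94G.WinsIn G k (insert a A) (insert b B))

/-- the strategy. -/
noncomputable def strat (G : Set ℂ) : Strategy where
  move α h := Classical.epsilon fun a => ∀ n : ℕ, α = n → Good G (9 - n) (pts1 h α) (pts2 h α) a
  earlier α h h' H := by
    rw [pts1_congr H, pts2_congr H]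

theorem strat_good {G : Set ℂ} {h : Hist} {n k : ℕ} (hk : 9 - n = k)
    (hw : H94G.WinsIn G (k + 1) (pts1 h n) (pts2 h n)) :
    Good G k (pts1 h n) (pts2 h n) ((strat G).move n h) := by
  have hex : ∃ a, ∀ m : ℕ, (n : Ordinal.{0}) = m →
      Good G (9 - m) (pts1 h n) (pts2 h n) a := by
    obtain ⟨a, ha⟩ := hw
    refine ⟨a, fun m hm => ?_⟩
    have hnm : n = m := by exact_mod_cast hm
    rw [← hnm, hk]
    exact ha
  have := Classical.epsilon_spec hex n rfl
  rw [hk] at this
  exact this

/-- For every set `G` of exactly four points of the plane, Player 1 has a strategy in the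
transfinite `G`-achievement game such that every play consistent with it ends with a strong win
of Player 1, and this by his tenth move at the latest. -/
theorem result (G : Set ℂ) (hG : G.ncard = 4) :
    ∃ s : Strategy, ∀ h : Hist, Consistent G s h → ∃ n : ℕ, n < 10 ∧ StrongWin G h n := by
  have hwin := H94G.wins_four hG
  refine ⟨strat G, fun h hh => ?_⟩
  by_contra hcon
  push Not at hcon
  have key : ∀ n : ℕ, n ≤ 10 → Running G h n ∧ (pts1 h n).Finite ∧ (pts2 h n).Finite ∧
      H94G.WinsIn G (10 - n) (pts1 h n) (pts2 h n) := by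
    intro n
    induction n with
    | zero =>
      intro _
      have e1 : pts1 h ((0 : ℕ) : Ordinal.{0}) = ∅ := by
        ext z
        simp [pts1]
      have e2 : pts2 h ((0 : ℕ) : Ordinal.{0}) = ∅ := by
        ext z
        simp [pts2]
      refine ⟨fun β hβ => ?_, ?_, ?_, ?_⟩
      · simp at hβ
      · rw [e1]; exact finite_empty
      · rw [e2]; exact finite_empty
      · rw [e1, e2]; exact hwin
    | succ n ih =>
      intro hn
      obtain ⟨hr, hf1, hf2, hw⟩ := ih (by omega)
      obtain ⟨k, hk⟩ : ∃ k, 10 - n = k + 1 := ⟨9 - n, by omega⟩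
      rw [hk] at hw
      have hgood := strat_good (k := k) (by omega) hw
      rw [← hh.1 n] at hgood
      obtain ⟨g1, g2, g3⟩ := hgood
      have hl1 : Legal1 h n := by
        simp only [Legal1, mem_union, not_or]
        exact ⟨g1, g2⟩
      have hnb' : ¬ Built G (pts1 h ((n : Ordinal.{0}) + 1)) := fun hb =>
        hcon n (by omega) ⟨hr, hl1, hb⟩
      have hnb := hnb'
      rw [pts1_succ] at hnb
      have g3' := g3.resolve_left hnb
      have hfree : ∃ b, b ∉ pts1 h ((n : Ordinal.{0}) + 1) ∪ pts2 h n := by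
        rw [pts1_succ]
        exact ((hf1.insert _).union hf2).infinite_compl.nonempty
      have hl2 := hh.2 n hr hnb' hfree
      have hl2' := hl2
      simp only [Legal2, pts1_succ, mem_union, not_or] at hl2'
      obtain ⟨g4, g5⟩ := g3' _ hl2'.1 hl2'.2
      have hcast : ((n + 1 : ℕ) : Ordinal.{0}) = (n : Ordinal.{0}) + 1 := by push_cast; rfl
      rw [hcast]
      refine ⟨?_, ?_, ?_, ?_⟩
      · intro β hβ
        rw [← Order.succ_eq_add_one, Order.lt_succ_iff] at hβ
        rcases hβ.lt_or_eq with h1 | rfl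
        · exact hr β h1
        · refine ⟨hl1, hl2, ?_, ?_⟩
          · rwa [pts1_succ]
          · rwa [pts2_succ]
      · rw [pts1_succ]
        exact hf1.insert _
      · rw [pts2_succ]
        exact hf2.insert _
      · rw [pts1_succ, pts2_succ, show 10 - (n + 1) = k by omega]
        exact g5
  exact (key 10 le_rfl).2.2.2

end Pool.Agent.Results.MP_a4da43_co.FourPoints
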